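import Mathlib
import Pool.Agent.H964.LF.Stm

/-!
# Resampling one ball (project LF of helper964, statement S_LOB)
-/

set_option autoImplicit false

namespace Pool.Agent.H415.LF

open MeasureTheory
open scoped ENNReal
open Pool.Agent.H964.LF

noncomputable section

section dist

variable {d n : ℕ}

theorem lob_zt_add (z : Fin d → ℤ) (i : Fin d) :
    zt n (z + Pi.single i 1) = zt n z + Pi.single i 1 := by
  funext j
  by_cases h : j = i
  · subst h
    simp [zt]
  · simp [zt, h]

theorem lob_zt_sub (z : Fin d → ℤ) (i : Fin d) :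
    zt n (z - Pi.single i 1) = zt n z - Pi.single i 1 := by
  funext j
  by_cases h : j = i
  · subst h
    simp [zt]
  · simp [zt, h]

theorem lob_zt_zero : zt n (0 : Fin d → ℤ) = 0 := by
  funext j
  simp [zt]

theorem lob_zt_surj (v : Tor d n) : ∃ z : Fin d → ℤ, zt n z = v := by
  refine ⟨fun i => ((v i).val : ℤ), ?_⟩
  funext j
  simp [zt]

theorem lob_l1_nonneg (z : Fin d → ℤ) : 0 ≤ l1 z := Finset.sum_nonneg fun _ _ => abs_nonneg _

theorem lob_l1_zero : l1 (0 : Fin d → ℤ) = 0 := by simp [l1]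

theorem lob_l1_single (i : Fin d) (a : ℤ) : l1 (Pi.single i a : Fin d → ℤ) = |a| := by
  unfold l1
  rw [Finset.sum_eq_single i]
  · simp
  · intro j _ hj
    simp [hj]
  · simp

theorem lob_l1_add (z z' : Fin d → ℤ) : l1 (z + z') ≤ l1 z + l1 z' := by
  unfold l1
  rw [← Finset.sum_add_distrib]
  exact Finset.sum_le_sum fun j _ => abs_add_le _ _

theorem lob_l1_neg (z : Fin d → ℤ) : l1 (-z) = l1 z := by
  unfold l1
  simp

theorem lob_abs_le (z : Fin d → ℤ) (i : Fin d) : |z i| ≤ l1 z :=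
  Finset.single_le_sum (f := fun i => |z i|) (fun _ _ => abs_nonneg _) (Finset.mem_univ i)

/-- the distance in the torus -/
def lobD (c v : Tor d n) : ℕ := sInf {m : ℕ | ∃ z : Fin d → ℤ, l1 z = m ∧ v = c + zt n z}

theorem lobD_mem (c v : Tor d n) : ∃ z : Fin d → ℤ, l1 z = lobD c v ∧ v = c + zt n z := by
  have h : {m : ℕ | ∃ z : Fin d → ℤ, l1 z = m ∧ v = c + zt n z}.Nonempty := by
    obtain ⟨z, hz⟩ := lob_zt_surj (v - c)
    refine ⟨(l1 z).toNat, z, (Int.toNat_of_nonneg (lob_l1_nonneg z)).symm, ?_⟩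
    rw [hz]
    abel
  exact Nat.sInf_mem h

theorem lobD_le {c v : Tor d n} {z : Fin d → ℤ} (h : v = c + zt n z) : (lobD c v : ℤ) ≤ l1 z := by
  have h1 : lobD c v ≤ (l1 z).toNat :=
    Nat.sInf_le ⟨z, (Int.toNat_of_nonneg (lob_l1_nonneg z)).symm, h⟩
  have h2 := Int.toNat_of_nonneg (lob_l1_nonneg z)
  omega

theorem lobD_self (c : Tor d n) : lobD c c = 0 := by
  have h := lobD_le (c := c) (v := c) (z := 0) (by rw [lob_zt_zero, add_zero])
  rw [lob_l1_zero] at h
  omega

theorem lobD_add (c v : Tor d n) (i : Fin d) : lobD c (v + Pi.single i 1) ≤ lobD c v + 1 := by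
  obtain ⟨z, hz, hv⟩ := lobD_mem c v
  have h1 := lobD_le (c := c) (v := v + Pi.single i 1) (z := z + Pi.single i 1) (by
    rw [lob_zt_add, ← add_assoc, ← hv])
  have h2 := lob_l1_add z (Pi.single i 1)
  rw [lob_l1_single, hz, abs_one] at h2
  omega

theorem lobD_sub (c v : Tor d n) (i : Fin d) : lobD c v ≤ lobD c (v + Pi.single i 1) + 1 := by
  obtain ⟨z, hz, hv⟩ := lobD_mem c (v + Pi.single i 1)
  have h1 := lobD_le (c := c) (v := v) (z := z - Pi.single i 1) (by
    rw [lob_zt_sub, ← add_sub_assoc, ← hv, add_sub_cancel_right])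
  have h2 := lob_l1_add z (-Pi.single i 1)
  rw [lob_l1_neg, lob_l1_single, hz, abs_one, ← sub_eq_add_neg] at h2
  omega

theorem lob_mem_ball {c v : Tor d n} {ρ : ℕ} : v ∈ ball c ρ ↔ lobD c v < ρ := by
  classical
  unfold ball
  rw [Finset.mem_filter]
  constructor
  · rintro ⟨-, z, hz, hv⟩
    have h1 := lobD_le hv
    omega
  · intro h
    obtain ⟨z, hz, hv⟩ := lobD_mem c v
    exact ⟨Finset.mem_univ _, z, by omega, hv⟩

theorem lob_card (c : Tor d n) (ρ : ℕ) : (ball c ρ).card ≤ (2 * ρ + 1) ^ d := by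
  classical
  have h1 : ball c ρ ⊆ (Fintype.piFinset fun _ : Fin d => Finset.Icc (-(ρ : ℤ)) ρ).image
      fun z => c + zt n z := by
    intro v hv
    unfold ball at hv
    rw [Finset.mem_filter] at hv
    obtain ⟨-, z, hz, hv⟩ := hv
    rw [Finset.mem_image]
    refine ⟨z, ?_, hv.symm⟩
    rw [Fintype.mem_piFinset]
    intro i
    have h2 := lob_abs_le z i
    rw [Finset.mem_Icc, ← abs_le]
    omega
  refine (Finset.card_le_card h1).trans (Finset.card_image_le.trans ?_)
  rw [Fintype.card_piFinset]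
  simp only [Int.card_Icc, Finset.prod_const, Finset.card_univ, Fintype.card_fin]
  refine Nat.pow_le_pow_left ?_ _
  omega

end dist

section lip

variable {d n : ℕ}

theorem lob_measurable_lip : MeasurableSet {ψ : Tor d n → ℝ | Lip ψ} := by
  have h : {ψ : Tor d n → ℝ | Lip ψ} =
      ⋂ x : Tor d n, ⋂ i : Fin d, {ψ : Tor d n → ℝ | |ψ (x + Pi.single i 1) - ψ x| ≤ 1} := by
    ext ψ
    simp only [Set.mem_iInter]
    rfl
  rw [h]
  refine MeasurableSet.iInter fun x => MeasurableSet.iInter fun i => ?_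
  exact measurableSet_le (by fun_prop) measurable_const

/-- values along a straight line -/
theorem lob_walk {ψ : Tor d n → ℝ} (h : Lip ψ) (c : Tor d n) (i : Fin d) (m : ℕ) :
    |ψ (c + zt n (Pi.single i (m : ℤ))) - ψ c| ≤ m := by
  induction m with
  | zero =>
    rw [Nat.cast_zero, Pi.single_zero, lob_zt_zero, add_zero, sub_self, abs_zero]
    simp
  | succ m ih =>
    have h1 : c + zt n (Pi.single i ((m + 1 : ℕ) : ℤ)) =
        c + zt n (Pi.single i (m : ℤ)) + Pi.single i 1 := by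
      rw [add_assoc, ← lob_zt_add, Nat.cast_add, Nat.cast_one, Pi.single_add]
    rw [h1]
    have h2 := h (c + zt n (Pi.single i (m : ℤ))) i
    have h3 := abs_sub_le (ψ (c + zt n (Pi.single i (m : ℤ)) + Pi.single i 1))
      (ψ (c + zt n (Pi.single i (m : ℤ)))) (ψ c)
    push_cast
    linarith

theorem lob_sphere (c : Tor d n) (i : Fin d) {ρ : ℕ} (hn : 2 * ρ + 2 ≤ 2 * n + 2) :
    c + zt n (Pi.single i (ρ : ℤ)) ∉ ball c ρ := by
  classical
  unfold ball
  rw [Finset.mem_filter]
  rintro ⟨-, z, hz, hv⟩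
  have h1 : ((z i : ℤ) : ZMod (2 * n + 2)) = ((ρ : ℤ) : ZMod (2 * n + 2)) := by
    have h2 := congrFun (add_left_cancel hv) i
    simp only [zt, Pi.single_eq_same] at h2
    exact h2.symm
  rw [ZMod.intCast_eq_intCast_iff_dvd_sub] at h1
  have h2 := lob_abs_le z i
  have h3 : |z i| < ρ := by omega
  rw [abs_lt] at h3
  have h4 : 0 < (ρ : ℤ) - z i := by omega
  have h5 := Int.le_of_dvd h4 h1
  push_cast at h5
  omega

theorem lob_max {a b a' b' : ℝ} (h : |a - b| ≤ 1) (h' : |a' - b'| ≤ 1) :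
    |max a a' - max b b'| ≤ 1 :=
  (abs_max_sub_max_le_max a a' b b').trans (max_le h h')

/-- the modified function -/
theorem lob_up (c : Tor d n) (ρ : ℕ) (b : ℝ) {φ : Tor d n → ℝ} (hφ : Lip φ) (hρ : 1 ≤ ρ)
    (hb : ∀ v, lobD c v = ρ → b ≤ φ v) :
    ∃ w : Tor d n → ℝ, Lip w ∧ (∀ v ∉ ball c ρ, w v = φ v) ∧ b + ρ ≤ w c := by
  classical
  obtain ⟨w, hw⟩ : ∃ w : Tor d n → ℝ, w = fun v =>
    if lobD c v < ρ then max (φ v) (b + ρ - lobD c v) else φ v := ⟨_, rfl⟩
  have hw1 : ∀ v, lobD c v < ρ → w v = max (φ v) (b + ρ - lobD c v) := by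
    intro v hv
    rw [hw]
    exact if_pos hv
  have hw2 : ∀ v, ¬ lobD c v < ρ → w v = φ v := by
    intro v hv
    rw [hw]
    exact if_neg hv
  have hw3 : ∀ v, lobD c v ≤ ρ → w v = max (φ v) (b + ρ - lobD c v) := by
    intro v hv
    by_cases h : lobD c v < ρ
    · exact hw1 v h
    · have h1 : lobD c v = ρ := by omega
      rw [hw2 v h, h1, add_sub_cancel_right, max_eq_left (hb v h1)]
  refine ⟨w, ?_, ?_, ?_⟩
  · intro v i
    have h1 := lobD_add c v i
    have h2 := lobD_sub c v i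
    have h3 := hφ v i
    by_cases h : lobD c v < ρ ∨ lobD c (v + Pi.single i 1) < ρ
    · rw [hw3 v (by omega), hw3 (v + Pi.single i 1) (by omega)]
      refine lob_max h3 ?_
      have h4 : ((lobD c (v + Pi.single i 1) : ℕ) : ℝ) ≤ lobD c v + 1 := by exact_mod_cast h1
      have h5 : ((lobD c v : ℕ) : ℝ) ≤ lobD c (v + Pi.single i 1) + 1 := by exact_mod_cast h2
      rw [abs_le]
      constructor <;> linarith
    · rw [not_or] at h
      rw [hw2 v h.1, hw2 _ h.2]
      exact h3
  · intro v hv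
    rw [lob_mem_ball] at hv
    exact hw2 v hv
  · rw [hw1 c (by rw [lobD_self]; omega), lobD_self, Nat.cast_zero, sub_zero]
    exact le_max_right _ _

end lip

theorem t_LOB : S_LOB := by
  intro d n c ρ b x hd hρ hn hb
  obtain ⟨B, hB⟩ : ∃ B, B = ball c ρ := ⟨_, rfl⟩
  rw [← hB]
  obtain ⟨S, hS⟩ : ∃ S : Set (B → ℝ), S = {y | Lip (Function.updateFinset x B y)} := ⟨_, rfl⟩
  obtain ⟨S', hS'⟩ : ∃ S' : Set (B → ℝ), S' = {y | Lip (Function.updateFinset x B y) ∧
    b + ρ / 2 ≤ Function.updateFinset x B y c} := ⟨_, rfl⟩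
  have hup : Measurable fun y : B → ℝ => Function.updateFinset x B y := measurable_updateFinset
  have hSm : MeasurableSet S := by
    rw [hS]
    exact hup lob_measurable_lip
  have hSm' : MeasurableSet S' := by
    rw [hS']
    refine MeasurableSet.inter (hup lob_measurable_lip) ?_
    exact measurableSet_le measurable_const ((measurable_pi_apply c).comp hup)
  have h1 : mg B ({ψ : Tor d n → ℝ | Lip ψ}.indicator 1) x = volume S := by
    have e1 : (fun y : B → ℝ => ({ψ : Tor d n → ℝ | Lip ψ}.indicator (1 : (Tor d n → ℝ) → ℝ≥0∞))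
        (Function.updateFinset x B y)) = S.indicator 1 := by
      rw [hS]
      rfl
    unfold mg lmarginal
    rw [e1, lintegral_indicator_one hSm]
    rfl
  have h2 : mg B ({ψ : Tor d n → ℝ | Lip ψ ∧ b + ρ / 2 ≤ ψ c}.indicator 1) x = volume S' := by
    have e1 : (fun y : B → ℝ => ({ψ : Tor d n → ℝ | Lip ψ ∧ b + ρ / 2 ≤ ψ c}.indicator
        (1 : (Tor d n → ℝ) → ℝ≥0∞)) (Function.updateFinset x B y)) = S'.indicator 1 := by
      rw [hS']
      rfl
    unfold mg lmarginal
    rw [e1, lintegral_indicator_one hSm']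
    rfl
  rw [h1, h2]
  rcases S.eq_empty_or_nonempty with h0 | ⟨y0, hy0⟩
  · rw [h0, measure_empty, mul_zero]
    exact bot_le
  have hxB : ∀ (y : B → ℝ) (v : Tor d n), v ∉ B → Function.updateFinset x B y v = x v := by
    intro y v hv
    unfold Function.updateFinset
    rw [dif_neg hv]
  have hyB : ∀ (y : B → ℝ) (v : B), Function.updateFinset x B y v = y v := by
    intro y v
    unfold Function.updateFinset
    rw [dif_pos v.2]
  have hy0L : Lip (Function.updateFinset x B y0) := by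
    rw [hS] at hy0
    exact hy0
  obtain ⟨w, hwL, hwx, hwc⟩ := lob_up c ρ b hy0L hρ (fun v hv => by
    have hv' : v ∉ B := by
      rw [hB, lob_mem_ball]
      omega
    obtain ⟨z, hz, hvz⟩ := lobD_mem c v
    rw [hxB y0 v hv', hvz]
    exact hb z (by rw [hz, hv]))
  rw [← hB] at hwx
  have hwx' : ∀ v ∉ B, w v = x v := fun v hv => by rw [hwx v hv, hxB y0 v hv]
  -- the contraction
  have hmap : AffineMap.homothety (fun v : B => w v) (1 / 4 : ℝ) '' S ⊆ S' := by
    rintro _ ⟨y, hy, rfl⟩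
    have hyL : Lip (Function.updateFinset x B y) := by
      rw [hS] at hy
      exact hy
    have hval : ∀ v, Function.updateFinset x B
        (AffineMap.homothety (fun v : B => w v) (1 / 4 : ℝ) y) v =
        1 / 4 * Function.updateFinset x B y v + 3 / 4 * w v := by
      intro v
      by_cases hv : v ∈ B
      · rw [hyB _ ⟨v, hv⟩, hyB y ⟨v, hv⟩, AffineMap.homothety_apply]
        simp only [vsub_eq_sub, vadd_eq_add, Pi.add_apply, Pi.smul_apply, Pi.sub_apply,
          smul_eq_mul]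
        ring
      · rw [hxB _ v hv, hxB y v hv, hwx' v hv]
        ring
    rw [hS']
    refine ⟨?_, ?_⟩
    · intro v i
      rw [hval, hval]
      have h3 := abs_le.1 (hyL v i)
      have h4 := abs_le.1 (hwL v i)
      rw [abs_le]
      constructor <;> linarith
    · show b + ρ / 2 ≤ Function.updateFinset x B
        (AffineMap.homothety (fun v : B => w v) (1 / 4 : ℝ) y) c
      rw [hval]
      have i : Fin d := ⟨0, by omega⟩
      have h3 := lob_walk hyL c i ρ
      have h4 : c + zt n (Pi.single i (ρ : ℤ)) ∉ B := by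
        rw [hB]
        exact lob_sphere c i hn
      rw [hxB y _ h4] at h3
      have h5 := hb (Pi.single i (ρ : ℤ)) (by rw [lob_l1_single, Nat.abs_cast])
      have h6 := (abs_le.1 h3).2
      linarith
  have hvol := Measure.addHaar_image_homothety (volume : Measure (B → ℝ)) (fun v : B => w v)
    (1 / 4 : ℝ) S
  have hfr : Module.finrank ℝ (B → ℝ) = B.card := by
    rw [Module.finrank_fintype_fun_eq_card, Fintype.card_coe]
  rw [hfr] at hvol
  calc ENNReal.ofReal ((1 / 4 : ℝ) ^ ((2 * ρ + 1) ^ d)) * volume S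
      ≤ ENNReal.ofReal |(1 / 4 : ℝ) ^ B.card| * volume S := by
        gcongr
        rw [abs_of_pos (by positivity)]
        refine pow_le_pow_of_le_one (by norm_num) (by norm_num) ?_
        rw [hB]
        exact lob_card c ρ
    _ = volume (AffineMap.homothety (fun v : B => w v) (1 / 4 : ℝ) '' S) := hvol.symm
    _ ≤ volume S' := measure_mono hmap

end

end Pool.Agent.H415.LF
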